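import Pool.Agent.Helper2_Pak.Stmts

/-!
# F7: a tile above another tile
-/

namespace Pool.Agent.Helper2_Pak.H87

open Pool.Agent.Helper2_Pack (Motion)

theorem I_mul_negI (k : ℕ) : Complex.I ^ k * (-Complex.I) ^ k = 1 := by
  rw [← mul_pow]; simp

theorem norm_rot (g : Motion) (k : ℕ) : ‖rot g k‖ = 1 := by simp [rot, g.unit]

theorem norm_rot_sub (g : Motion) (k : ℕ) : ‖rot g k - 1‖ = ‖g.u - Complex.I ^ k‖ := by
  have : rot g k - 1 = (g.u - Complex.I ^ k) * (-Complex.I) ^ k := by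
    rw [sub_mul, I_mul_negI]; rfl
  rw [this, norm_mul]
  simp

theorem rot_bd {e : ℝ} {a : ℂ} {k : ℕ} {g : Motion} (h : NearK e a k g) :
    1 - e ≤ (rot g k).re ∧ (rot g k).re ≤ 1 ∧ |(rot g k).im| ≤ e := by
  obtain ⟨_, _, _, h4⟩ := h
  rw [← norm_rot_sub] at h4
  have h5 := (Complex.abs_re_le_norm (rot g k - 1)).trans h4
  have h6 := (Complex.abs_im_le_norm (rot g k - 1)).trans h4
  have h7 := (Complex.abs_re_le_norm (rot g k)).trans_eq (norm_rot g k)
  simp only [Complex.sub_re, Complex.one_re, Complex.sub_im, Complex.one_im, sub_zero] at h5 h6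
  rw [abs_le] at h5 h7
  exact ⟨by linarith, h7.2, h6⟩

theorem HY_bd {t : ℝ} (ht : 0 < t) (ht' : t ≤ 1 / 2 ^ 60) (k : ℕ) :
    1 / 2 ≤ HY t k ∧ HY t k ≤ 1 / 2 + 1 / 1000 := by
  have : t ^ 2 ≤ 1 / 1000 := by
    have : t ≤ 1 / 1000 := ht'.trans (by norm_num)
    nlinarith
  unfold HY hh
  split_ifs
  · constructor <;> nlinarith
  · norm_num

/-- the two lines, the common estimate -/
theorem line_near {t : ℝ} (ht : 0 < t) (ht' : t ≤ 1 / 2 ^ 60) {a : ℂ} {k : ℕ} {g : Motion}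
    (h : NearK (1 / 512) a k g) {l x : ℝ} (hl : |l| ≤ 3 / 8) (hx : |x - (a.re + 1 / 2 + l)| ≤ 1 / 64) :
    |tpL t g k x - (a.im + 1)| ≤ 1 / 64 ∧ |btL t g k x - a.im| ≤ 1 / 64 := by
  obtain ⟨c1, c2, s1⟩ := rot_bd h
  obtain ⟨_, v1, v2, _⟩ := h
  obtain ⟨H1, H2⟩ := HY_bd ht ht' k
  unfold tpL btL
  set c := (rot g k).re with hc
  set s := (rot g k).im with hs
  set H := HY t k with hH
  have c0 : 0 < c := by linarith
  have hHc : |H / c - 1 / 2| ≤ 3 / 1000 := by
    rw [abs_le]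
    constructor
    · have : 1 / 2 ≤ H / c := by
        rw [le_div_iff₀ c0]; nlinarith
      linarith
    · have : H / c ≤ 503 / 1000 := by
        rw [div_le_iff₀ c0]; nlinarith
      linarith
  have hT : |s / c| ≤ 1 / 511 := by
    rw [abs_div, abs_of_pos c0, div_le_iff₀ c0]
    nlinarith
  have hd : |x - g.v.re| ≤ 2 / 5 := by
    simp only [Complex.sub_re] at v1
    rw [abs_le] at *
    constructor <;> linarith [v1.1, v1.2, hx.1, hx.2, hl.1, hl.2]
  have hTd : |s / c * (x - g.v.re)| ≤ 1 / 1000 := by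
    rw [abs_mul]
    calc |s / c| * |x - g.v.re| ≤ 1 / 511 * (2 / 5) := by
          apply mul_le_mul hT hd (abs_nonneg _) (by norm_num)
      _ ≤ 1 / 1000 := by norm_num
  simp only [Complex.sub_im] at v2
  rw [abs_le] at v2 hHc hTd
  rw [abs_le, abs_le]
  refine ⟨⟨?_, ?_⟩, ⟨?_, ?_⟩⟩ <;> linarith [v2.1, v2.2, hHc.1, hHc.2, hTd.1, hTd.2]

/-- the difference of the lines is affine -/
theorem affine_ge {t : ℝ} {g h : Motion} {k k' : ℕ} {x x₁ x₂ q : ℝ} (h1 : x₁ < x) (h2 : x < x₂)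
    (e1 : tpL t g k x₁ + q ≤ btL t h k' x₁) (e2 : tpL t g k x₂ + q ≤ btL t h k' x₂) :
    tpL t g k x + q ≤ btL t h k' x := by
  unfold tpL btL at *
  set A := g.v.im + HY t k / (rot g k).re
  set B := (rot g k).im / (rot g k).re
  set C := h.v.im - HY t k' / (rot h k').re
  set D := (rot h k').im / (rot h k').re
  nlinarith [mul_nonneg (sub_nonneg.2 h1.le) (sub_nonneg.2 e2),
    mul_nonneg (sub_nonneg.2 h2.le) (sub_nonneg.2 e1), sub_pos.2 (h1.trans h2)]

theorem q_le {t : ℝ} (ht : 0 < t) {a : ℂ} {k : ℕ} {g : Motion} (h : NearK (1 / 512) a k g) :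
    t ^ 3 ≤ t ^ 3 / (rot g k).re := by
  obtain ⟨c1, c2, _⟩ := rot_bd h
  rw [le_div_iff₀ (by linarith)]
  nlinarith [pow_pos ht 3]

theorem pq_small {t : ℝ} (ht : 0 < t) (ht' : t ≤ 1 / 2 ^ 60) {a : ℂ} {k : ℕ} {g : Motion}
    (h : NearK (1 / 512) a k g) : 0 ≤ t ^ 3 / (rot g k).re ∧ t ^ 3 / (rot g k).re ≤ 1 / 1000 := by
  obtain ⟨c1, c2, _⟩ := rot_bd h
  have h3 : t ^ 3 ≤ 1 / 2000 := by
    have : t ≤ 1 / 1000 := ht'.trans (by norm_num)
    have h2 : t ^ 2 ≤ 1 / 1000 := by nlinarith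
    nlinarith
  refine ⟨by positivity, ?_⟩
  rw [div_le_iff₀ (by linarith)]
  nlinarith

/-- F7 -/
theorem f7 (h2 : F2Stmt) (h3 : F3Stmt) (h5 : F5Stmt) (h6 : F6Stmt) : F7Stmt := by
  intro t g h a k k' l x ht ht' hg hh' hx hd
  have key : (l = 0 ∨ |l| = 1 / 8 ∨ |l| = 3 / 8) → tpL t g k x ≤ btL t h k' x := by
    intro hl
    by_contra hlt
    rw [not_le] at hlt
    have hl' : |l| ≤ 3 / 8 := by
      rcases hl with rfl | hl | hl
      · norm_num
      · linarith
      · linarith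
    have n1 := (line_near ht ht' hg hl' hx).1
    have hx' : |x - ((a + Complex.I).re + 1 / 2 + l)| ≤ 1 / 64 := by simpa using hx
    have n2 := (line_near ht ht' hh' hl' hx').2
    simp only [Complex.add_im, Complex.I_im] at n2
    rw [abs_le] at n1 n2
    obtain ⟨y, hy1, hy2⟩ := exists_between hlt
    have m1 := h2 t g a k l x y ht ht' hg (by tauto) hx (by linarith [n1.1, n1.2, n2.1, n2.2]) hy2
    have m2 := h3 t h (a + Complex.I) k' l x y ht ht' hh' (by tauto) hx' hy1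
      (by linarith [n1.1, n1.2, n2.1, n2.2])
    exact Set.disjoint_left.1 hd m1 m2
  refine ⟨key, fun hl => ?_⟩
  by_cases hp : penV k k' = true
  · have hl' : |l| ≤ 1 / 8 := by
      rcases hl with rfl | hl
      · norm_num
      · linarith
    have hx2 : a.re + 1 / 2 - 1 / 8 - 1 / 64 ≤ x ∧ x ≤ a.re + 1 / 2 + 1 / 8 + 1 / 64 := by
      rw [abs_le] at hx hl'
      constructor <;> linarith [hx.1, hx.2, hl'.1, hl'.2]
    have hpq : pq t (penV k k') = t ^ 3 := by rw [hp]; rfl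
    rw [hpq]
    have hk : (k = 0 ∧ 2 ≤ k') ∨ (k = 1 ∧ k' = 2) := by
      unfold penV at hp
      simp only [Bool.or_eq_true, Bool.and_eq_true, beq_iff_eq] at hp
      omega
    rcases hk with ⟨rfl, hk'⟩ | ⟨rfl, rfl⟩
    · -- the bumps of `g`
      have main : ∀ s : ℝ, |s| = 1 / 4 → ∃ x₁, |x₁ - (a.re + 1 / 2 + s)| ≤ 1 / 64 ∧
          tpL t g 0 x₁ + t ^ 3 ≤ btL t h k' x₁ := by
        intro s hs
        obtain ⟨z, hz, hz1, hz2⟩ := (h5 t g a s ht ht' hs).1 hg
        have hz3 := h6 t g h ht ht' hd z hz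
        refine ⟨z.re, hz1, ?_⟩
        have hz1' : |z.re - ((a + Complex.I).re + 1 / 2 + s)| ≤ 1 / 64 := by simpa using hz1
        have n1 := (line_near ht ht' hg (by rw [hs]; norm_num) hz1).1
        have n2 := (line_near ht ht' hh' (by rw [hs]; norm_num) hz1').2
        simp only [Complex.add_im, Complex.I_im] at n2
        rw [abs_le] at n1 n2
        have q1 := q_le ht hg
        have q2 := pq_small ht ht' hg
        by_contra hlt
        rw [not_le] at hlt
        apply hz3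
        have m2 := h3 t h (a + Complex.I) k' s z.re z.im ht ht' hh' (by tauto) hz1' (by linarith)
          (by linarith [n1.1, n1.2, n2.1, n2.2, q2.2])
        exact m2
      obtain ⟨x₁, hx₁, e1⟩ := main (-(1 / 4)) (by norm_num)
      obtain ⟨x₂, hx₂, e2⟩ := main (1 / 4) (by norm_num)
      rw [abs_le] at hx₁ hx₂
      exact affine_ge (by linarith [hx₁.2, hx2.1]) (by linarith [hx₂.1, hx2.2]) e1 e2
    · -- the bumps of `h`
      have main : ∀ s : ℝ, |s| = 1 / 4 → ∃ x₁, |x₁ - (a.re + 1 / 2 + s)| ≤ 1 / 64 ∧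
          tpL t g 1 x₁ + t ^ 3 ≤ btL t h 2 x₁ := by
        intro s hs
        obtain ⟨z, hz, hz1, hz2⟩ := (h5 t h (a + Complex.I) s ht ht' hs).2 hh'
        have hz3 := h6 t h g ht ht' hd.symm z hz
        have hz1' : |z.re - (a.re + 1 / 2 + s)| ≤ 1 / 64 := by simpa using hz1
        refine ⟨z.re, hz1', ?_⟩
        have n1 := (line_near ht ht' hg (by rw [hs]; norm_num) hz1').1
        have n2 := (line_near ht ht' hh' (by rw [hs]; norm_num) hz1).2
        simp only [Complex.add_im, Complex.I_im] at n2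
        rw [abs_le] at n1 n2
        have q1 := q_le ht hh'
        have q2 := pq_small ht ht' hh'
        by_contra hlt
        rw [not_le] at hlt
        apply hz3
        have m2 := h2 t g a 1 s z.re z.im ht ht' hg (by tauto) hz1'
          (by linarith [n1.1, n1.2, n2.1, n2.2, q2.2]) (by linarith)
        exact m2
      obtain ⟨x₁, hx₁, e1⟩ := main (-(1 / 4)) (by norm_num)
      obtain ⟨x₂, hx₂, e2⟩ := main (1 / 4) (by norm_num)
      rw [abs_le] at hx₁ hx₂
      exact affine_ge (by linarith [hx₁.2, hx2.1]) (by linarith [hx₂.1, hx2.2]) e1 e2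
  · have hpq : pq t (penV k k') = 0 := by
      rw [Bool.not_eq_true] at hp
      rw [hp]; rfl
    rw [hpq, add_zero]
    exact key (by tauto)

end Pool.Agent.Helper2_Pak.H87
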