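import Pool.Agent.Helper2_Pak.Stmts

/-!
# F8: a tile on the right of another tile
-/

namespace Pool.Agent.Helper2_Pak.H87.F8

open Pool.Agent.Helper2_Pack (Motion)

/-- the motion followed by the rotation by `I` -/
noncomputable def turn (g : Motion) : Motion :=
  ⟨Complex.I * g.u, Complex.I * g.v, by simp [g.unit]⟩

/-- multiplication by `I` as a homeomorphism -/
noncomputable def turnHomeo : ℂ ≃ₜ ℂ := Homeomorph.mulLeft₀ Complex.I Complex.I_ne_zero

theorem tile_turn (t : ℝ) (g : Motion) : tile t (turn g) = turnHomeo '' tile t g := by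
  unfold tile
  rw [Set.image_image]
  apply Set.image_congr
  intro z _
  show Complex.I * g.u * z + Complex.I * g.v = Complex.I * (g.u * z + g.v)
  ring

theorem disjoint_turn {t : ℝ} {g h : Motion}
    (hd : Disjoint (interior (tile t g)) (interior (tile t h))) :
    Disjoint (interior (tile t (turn g))) (interior (tile t (turn h))) := by
  rw [tile_turn, tile_turn, ← turnHomeo.image_interior, ← turnHomeo.image_interior]
  exact (Set.disjoint_image_iff turnHomeo.injective).2 hd

theorem I_pow_mod (k : ℕ) : Complex.I ^ ((k + 1) % 4) = Complex.I * Complex.I ^ k := by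
  conv_rhs => rw [← pow_succ', ← Nat.div_add_mod (k + 1) 4, pow_add, pow_mul]
  simp

theorem negI_pow_mod (k : ℕ) :
    (-Complex.I) ^ ((k + 1) % 4) = (-Complex.I) * (-Complex.I) ^ k := by
  conv_rhs => rw [← pow_succ', ← Nat.div_add_mod (k + 1) 4, pow_add, pow_mul]
  have : (-Complex.I) ^ 4 = 1 := by
    rw [Even.neg_pow (by decide), Complex.I_pow_four]
  rw [this, one_pow, one_mul]

theorem rot_turn (g : Motion) (k : ℕ) : rot (turn g) ((k + 1) % 4) = rot g k := by
  unfold rot turn
  rw [negI_pow_mod]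
  linear_combination (-(g.u * (-Complex.I) ^ k)) * Complex.I_mul_I

theorem near_turn {e : ℝ} {a : ℂ} {k : ℕ} {g : Motion} (h : NearK e a k g) :
    NearK e (Complex.I * a - 1) ((k + 1) % 4) (turn g) := by
  obtain ⟨_, h2, h3, h4⟩ := h
  refine ⟨Nat.mod_lt _ (by norm_num), ?_, ?_, ?_⟩
  · have e1 : ((turn g).v - (Complex.I * a - 1)).re - 1 / 2 = -((g.v - a).im - 1 / 2) := by
      simp [turn]; ring
    rw [e1, abs_neg]
    exact h3
  · have e1 : ((turn g).v - (Complex.I * a - 1)).im - 1 / 2 = (g.v - a).re - 1 / 2 := by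
      simp [turn]
    rw [e1]
    exact h2
  · have e1 : (turn g).u - Complex.I ^ ((k + 1) % 4) = Complex.I * (g.u - Complex.I ^ k) := by
      rw [I_pow_mod]; simp only [turn]; ring
    rw [e1, norm_mul, Complex.norm_I, one_mul]
    exact h4

theorem HY_turn (t : ℝ) (k : ℕ) : HY t ((k + 1) % 4) = HX t k := by
  unfold HY HX
  have : (k + 1) % 4 % 2 = 0 ↔ ¬ k % 2 = 0 := by omega
  by_cases hk : k % 2 = 0
  · rw [if_neg (by omega), if_pos hk]
  · rw [if_pos (by omega), if_neg hk]

theorem tp_turn (t : ℝ) (g : Motion) (k : ℕ) (y : ℝ) :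
    tpL t (turn g) ((k + 1) % 4) (-y) = rtL t g k y := by
  unfold tpL rtL
  rw [rot_turn, HY_turn]
  simp [turn]
  ring

theorem bt_turn (t : ℝ) (g : Motion) (k : ℕ) (y : ℝ) :
    btL t (turn g) ((k + 1) % 4) (-y) = lfL t g k y := by
  unfold btL lfL
  rw [rot_turn, HY_turn]
  simp [turn]
  ring

theorem pen_turn {k k' : ℕ} (hk : k < 4) (hk' : k' < 4) :
    penV ((k + 1) % 4) ((k' + 1) % 4) = penH k k' := by
  interval_cases k <;> interval_cases k' <;> rfl

/-- F8 -/
theorem f8 (h7 : F7Stmt) : F8Stmt := by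
  intro t g h a k k' y ht ht' hg hh hy hd
  have hh' := near_turn hh
  have e1 : Complex.I * (a + 1) - 1 = (Complex.I * a - 1) + Complex.I := by ring
  rw [e1] at hh'
  have hx : |-y - ((Complex.I * a - 1).re + 1 / 2 + 0)| ≤ 1 / 64 := by
    have e2 : -y - ((Complex.I * a - 1).re + 1 / 2 + 0) = -(y - (a.im + 1 / 2)) := by
      simp; ring
    rw [e2, abs_neg]
    exact hy
  have := (h7 t (turn g) (turn h) (Complex.I * a - 1) ((k + 1) % 4) ((k' + 1) % 4) 0 (-y) ht ht'
    (near_turn hg) hh' hx (disjoint_turn hd)).2 (Or.inl rfl)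
  rwa [tp_turn, bt_turn, pen_turn hg.1 hh.1] at this

end Pool.Agent.Helper2_Pak.H87.F8
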