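import Pool.Agent.Helper87_Pak.GLib

/-!
# G3: floor and ceiling away from the bumps and dents
-/

namespace Pool.Agent.Helper2_Pak.H87

/-- G3 -/
theorem g3 (h1 : G1Stmt) : G3Stmt := by
  intro t G c l hOK hS hc z hz hx
  obtain ⟨ht', _, _, hD, _, _⟩ := h1 t G hOK hS
  have ht := hS.pos
  have hrw : ∀ c r, 0 < G.rw t c r ∧ G.rw t c r ≤ t / 32 :=
    fun c r => ⟨(hD c r).2.2.2, (hD c r).2.2.1⟩
  obtain ⟨s3, s1⟩ := small3 ht ht'
  -- the position in the column
  have pos : (l = 0 ∨ |l| = 1 / 8 ∨ |l| = 3 / 8) → z ∈ G.colReg t c ∧ 7 / 64 ≤ z.re - c ∧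
      z.re - c ≤ 57 / 64 ∧ 1 / 64 ≤ |z.re - c - 1 / 4| ∧ 1 / 64 ≤ |z.re - c - 3 / 4| := by
    intro hl
    have hl2 : l = 0 ∨ l = 1 / 8 ∨ l = -(1 / 8) ∨ l = 3 / 8 ∨ l = -(3 / 8) := by
      rcases hl with h | h | h
      · exact Or.inl h
      · rcases eq_or_eq_neg_of_abs_eq h with h | h <;> tauto
      · rcases eq_or_eq_neg_of_abs_eq h with h | h <;> tauto
    have hb : 7 / 64 ≤ z.re - c ∧ z.re - c ≤ 57 / 64 := by
      rw [abs_le] at hx
      rcases hl2 with h | h | h | h | h <;> subst h <;> constructor <;> linarith [hx.1, hx.2]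
    refine ⟨(mem_col ht ht' hrw hz (by linarith [hb.1]) (by linarith [hb.2])).2, hb.1, hb.2, ?_, ?_⟩
    · rw [abs_le] at hx
      rw [le_abs]
      rcases hl2 with h | h | h | h | h <;> subst h
      · left; linarith [hx.1]
      · left; linarith [hx.1]
      · left; linarith [hx.1]
      · left; linarith [hx.1]
      · right; linarith [hx.2]
    · rw [abs_le] at hx
      rw [le_abs]
      rcases hl2 with h | h | h | h | h <;> subst h
      · right; linarith [hx.2]
      · right; linarith [hx.2]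
      · right; linarith [hx.2]
      · left; linarith [hx.1]
      · right; linarith [hx.2]
  refine ⟨fun hl => ?_, fun hL hR hl => ?_, fun hL hl => ?_, fun hR hl => ?_⟩
  · obtain ⟨⟨_, _, hf, _⟩, p1, p2, p3, p4⟩ := pos hl
    unfold Lay.locFl at hf
    rw [ramp_one ht (by linarith) (by linarith), dent_zero ht p3, dent_zero ht p4] at hf
    have b1 := bump_nonneg t (z.re - c - 1 / 4)
    have b2 := bump_nonneg t (z.re - c - 3 / 4)
    split_ifs at hf <;> linarith
  · obtain ⟨⟨_, _, _, hf⟩, p1, p2, p3, p4⟩ := pos hl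
    unfold Lay.locCe at hf
    rw [ramp_one ht (by linarith) (by linarith), dent_zero ht p3, dent_zero ht p4, hL, hR] at hf
    have b1 := bump_nonneg t (z.re - c - 1 / 4)
    have b2 := bump_nonneg t (z.re - c - 3 / 4)
    simp only [Bool.false_eq_true, if_false] at hf
    split_ifs at hf <;> linarith
  · obtain ⟨⟨_, _, _, hf⟩, p1, p2, p3, p4⟩ := pos (by right; left; rw [hl]; norm_num)
    subst hl
    rw [abs_le] at hx
    have he := eL_bd (G.kd c).sig
    unfold Lay.locCe at hf
    rw [ramp_one ht (by linarith) (by linarith), dent_zero ht p3, if_pos hL,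
      if_pos (by linarith [hx.2, he.1])] at hf
    rw [ce_port (Or.inl hL)]
    linarith
  · obtain ⟨⟨_, _, _, hf⟩, p1, p2, p3, p4⟩ := pos (by right; left; rw [hl]; norm_num)
    subst hl
    rw [abs_le] at hx
    have he := eL_bd (G.kd c).sig
    unfold Lay.locCe at hf
    rw [ramp_one ht (by linarith) (by linarith), dent_zero ht p4, isR_isL hR, hR,
      if_neg (by simp), if_pos rfl, if_neg (by linarith [hx.1, he.2])] at hf
    rw [ce_port (Or.inr hR)]
    linarith

end Pool.Agent.Helper2_Pak.H87
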