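import Pool.Agent.Helper87_Pak.PLib
import Pool.Agent.Helper2_Pak.Cast

/-!
# PB1: the floor
-/

namespace Pool.Agent.Helper2_Pak.H87

open Pool.Agent.Helper2_Pack (Polygon pt Crosses region IsSimple chainVal StrictX)
open Pool.Agent.Helper34_Pack (Seg)

theorem bump_tentF {t e : ℝ} (ht : 0 < t) : bump t e = tentF (t ^ 3) (t ^ 3) e := by
  have h3 : 0 < t ^ 3 := by positivity
  unfold bump tentF
  split_ifs with h
  · rw [max_eq_right (by linarith)]
    field_simp
  · rw [max_eq_left (by linarith)]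

theorem dent_tentF {t e : ℝ} (ht : 0 < t) : -dent t e = tentF (1 / 64) (-(2 * t ^ 3)) e := by
  have h3 : 0 < t ^ 3 := by positivity
  unfold dent tentF
  split_ifs with h
  · rw [max_eq_right (by nlinarith)]
    ring
  · rw [max_eq_left (by nlinarith)]
    simp

theorem locFl_zero {t : ℝ} (ht : 0 < t) (ht' : t ≤ 1 / 64) (G : Lay) (c : ℕ) :
    G.locFl t c 0 = 0 := by
  have h3 : t ^ 3 ≤ 1 / 64 := by
    have h2 : t ^ 2 ≤ 1 / 64 := by nlinarith
    nlinarith
  have h4 : 0 < t ^ 3 := by positivity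
  unfold Lay.locFl
  rw [ramp_left ht (by linarith) (by linarith)]
  split_ifs
  · rw [neg_add, dent_tentF ht, dent_tentF ht, tentF_zero (by norm_num) (by norm_num),
      tentF_zero (by norm_num) (by norm_num)]
    simp
  · rw [bump_tentF ht, bump_tentF ht, tentF_zero h4 (by norm_num; linarith),
      tentF_zero h4 (by norm_num; linarith)]
    simp

theorem locFl_one {t : ℝ} (ht : 0 < t) (ht' : t ≤ 1 / 64) (G : Lay) (c : ℕ) :
    G.locFl t c 1 = 0 := by
  have h3 : t ^ 3 ≤ 1 / 64 := by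
    have h2 : t ^ 2 ≤ 1 / 64 := by nlinarith
    nlinarith
  have h4 : 0 < t ^ 3 := by positivity
  unfold Lay.locFl
  rw [ramp_right ht (by linarith) (by linarith)]
  split_ifs
  · rw [neg_add, dent_tentF ht, dent_tentF ht, tentF_zero (by norm_num) (by norm_num),
      tentF_zero (by norm_num) (by norm_num)]
    simp
  · rw [bump_tentF ht, bump_tentF ht, tentF_zero h4 (by norm_num; linarith),
      tentF_zero h4 (by norm_num; linarith)]
    simp

/-- the floor as a function -/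
noncomputable def flF (t : ℝ) (G : Lay) (x : ℝ) : ℝ := G.locFl t ⌊x⌋₊ (x - ⌊x⌋₊)

theorem flF_eq {t : ℝ} (ht : 0 < t) (ht' : t ≤ 1 / 64) (G : Lay) {c : ℕ} {x : ℝ} (h1 : (c : ℝ) ≤ x)
    (h2 : x ≤ c + 1) : flF t G x = G.locFl t c (x - c) := by
  unfold flF
  rcases eq_or_lt_of_le h2 with h3 | h3
  · have e : ⌊x⌋₊ = c + 1 := by
      rw [h3]
      have : ((c : ℝ) + 1) = ((c + 1 : ℕ) : ℝ) := by push_cast; rfl
      rw [this, Nat.floor_natCast]
    rw [e, h3]
    push_cast
    rw [sub_self, locFl_zero ht ht', add_sub_cancel_left, locFl_one ht ht']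
  · have e : ⌊x⌋₊ = c := by
      rw [Nat.floor_eq_iff (by linarith [(Nat.cast_nonneg c : (0 : ℝ) ≤ c)])]
      exact ⟨h1, h3⟩
    rw [e]

theorem flPts_chain (G : Lay) {t : ℚ} (ht : 0 < t) (ht' : t ≤ 1 / 64) (c : ℕ) :
    (G.flPts t c ++ [(((c + 1 : ℕ) : ℚ), (0 : ℚ))]).IsChain (Seg (flF t G)) := by
  have ht0 : (0 : ℝ) < t := by exact_mod_cast ht
  have ht1 : (t : ℝ) ≤ 1 / 64 := by
    have h := Rat.cast_le (K := ℝ) |>.2 ht'
    push_cast at h
    exact h
  have h3 : t ^ 3 ≤ 1 / 64 := by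
    have h2 : t ^ 2 ≤ 1 / 64 := by nlinarith
    nlinarith
  have h4 : 0 < t ^ 3 := by positivity
  unfold Lay.flPts
  by_cases hW : (G.kd c).isW = true
  · rw [if_pos hW]
    have := col_chain (F := flF t G) (c := c) (y := G.fl t c) (w := 1 / 64) (d := -(2 * t ^ 3)) ht ht'
      (by norm_num) le_rfl (by
        intro x h1 h2
        push_cast at h1 h2 ⊢
        rw [flF_eq ht0 ht1 G h1 h2, Lay.locFl, if_pos hW, neg_add, dent_tentF ht0, dent_tentF ht0,
          G.cast_fl]
        ring)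
    simpa using this
  · rw [if_neg hW]
    have := col_chain (F := flF t G) (c := c) (y := G.fl t c) (w := t ^ 3) (d := t ^ 3) ht ht'
      h4 h3 (by
        intro x h1 h2
        push_cast at h1 h2 ⊢
        rw [flF_eq ht0 ht1 G h1 h2, Lay.locFl, if_neg hW, bump_tentF ht0, bump_tentF ht0,
          G.cast_fl]
        ring)
    simpa using this

theorem floor_chain (G : Lay) {t : ℚ} (ht : 0 < t) (ht' : t ≤ 1 / 64) (k : ℕ) :
    ((List.range k).flatMap (G.flPts t) ++ [((k : ℚ), (0 : ℚ))]).IsChain (Seg (flF t G)) := by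
  induction k with
  | zero => simp
  | succ k ih =>
    have h := flPts_chain G ht ht' k
    obtain ⟨R, hR⟩ : ∃ R, G.flPts t k = ((k : ℚ), (0 : ℚ)) :: R := ⟨_, rfl⟩
    rw [hR, List.cons_append] at h
    rw [List.range_succ, List.flatMap_append, List.flatMap_singleton, hR, List.append_assoc,
      List.cons_append, List.isChain_split]
    exact ⟨ih, h⟩

theorem t_small {m : ℕ} {G : Lay} (h : Small ((1 / 2) ^ m) G) : ((1 / 2 : ℚ) ^ m) ≤ 1 / 64 := by
  have h1 := h.small
  have h2 : ((1 / 2 : ℝ)) ^ m ≤ 1 / 64 := by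
    have h3 : (64 : ℝ) ≤ 2 ^ (32 * G.K + 120) := by
      calc (64 : ℝ) = 2 ^ 6 := by norm_num
        _ ≤ 2 ^ (32 * G.K + 120) := pow_le_pow_right₀ (by norm_num) (by omega)
    have h4 := h.pos
    nlinarith
  have : (((1 / 2 : ℚ) ^ m : ℚ) : ℝ) ≤ ((1 / 64 : ℚ) : ℝ) := by
    rw [cast_half]
    push_cast
    exact h2
  exact_mod_cast this

/-- PB1 -/
theorem pb1 : PB1Stmt := by
  intro m G hOK hS
  have ht : (0 : ℚ) < (1 / 2) ^ m := by positivity
  have ht' := t_small hS
  have ht0 : (0 : ℝ) < (1 / 2) ^ m := by positivity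
  have ht1 : ((1 / 2 : ℝ)) ^ m ≤ 1 / 64 := by
    have h := Rat.cast_le (K := ℝ) |>.2 ht'
    rw [cast_half] at h
    push_cast at h
    exact h
  have hc := floor_chain G ht ht' G.M
  rw [cast_half] at hc
  replace hc : (G.floorP ((1 / 2) ^ m)).IsChain (Seg (flF ((1 / 2) ^ m) G)) := hc
  have hM := hOK.M_pos
  obtain ⟨R, hR⟩ : ∃ R, G.floorP ((1 / 2) ^ m) = ((0 : ℚ), (0 : ℚ)) :: R := by
    unfold Lay.floorP
    obtain ⟨M, hM'⟩ : ∃ M, G.M = M + 1 := ⟨G.M - 1, by omega⟩
    rw [hM', List.range_succ_eq_map, List.flatMap_cons]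
    exact ⟨_, rfl⟩
  have hlast : (G.floorP ((1 / 2) ^ m)).getLast? = some ((G.M : ℚ), 0) := by
    unfold Lay.floorP
    rw [List.getLast?_append]
    rfl
  have hhead : (G.floorP ((1 / 2) ^ m)).head? = some (0, 0) := by rw [hR]; rfl
  have hM' : ((0 : ℚ) : ℝ) ≤ 0 ∧ (0 : ℚ) < G.M := ⟨by simp, by exact_mod_cast (by omega : 0 < G.M)⟩
  have hf0 : flF ((1 / 2) ^ m) G ((0 : ℚ) : ℝ) = ((0 : ℚ) : ℝ) := by
    have := flF_eq ht0 ht1 G (c := 0) (x := 0) (by simp) (by simp)
    simp only [Rat.cast_zero]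
    rw [this]
    simpa using locFl_zero ht0 ht1 G 0
  refine ⟨weakX_of_strictX (Helper34_Pack.chain_strict hc), hhead, hlast, ?_, ?_, ?_⟩
  · cases hR2 : R with
    | nil =>
      exfalso
      rw [hR, hR2] at hlast
      simp only [List.getLast?_singleton, Option.some.injEq, Prod.mk.injEq, and_true] at hlast
      have := hM'.2
      rw [← hlast] at this
      exact lt_irrefl _ this
    | cons s L =>
      rw [hR, hR2]
      simp
  · intro c hcM x h1 h2
    have hx : x ≤ G.M := by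
      have : (c : ℝ) + 1 ≤ G.M := by exact_mod_cast hcM
      linarith
    rw [Helper34_Pack.chain_eval' hc hhead hlast hM'.2 x (by
      have : (0 : ℝ) ≤ c := Nat.cast_nonneg c
      push_cast; linarith) (by push_cast; exact hx)]
    exact flF_eq ht0 ht1 G h1 h2
  · rw [hR] at hc hlast
    have := (pathSet_chain R (0, 0) _ hc hlast hf0).2
    rw [hR, this]
    ext z
    simp only [Set.mem_ofPred_eq, Rat.cast_zero, Rat.cast_natCast]
    constructor
    · rintro ⟨h1, h2, h3⟩
      rcases eq_or_lt_of_le h2 with h4 | h4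
      · refine ⟨G.M - 1, by omega, ?_, ?_, ?_⟩
        · have : ((G.M - 1 : ℕ) : ℝ) ≤ G.M := by exact_mod_cast (by omega : G.M - 1 ≤ G.M)
          rw [h4]; exact this
        · rw [h4]
          have : ((G.M - 1 : ℕ) : ℝ) + 1 = G.M := by
            have : (((G.M - 1) + 1 : ℕ) : ℝ) = G.M := by congr 1; omega
            rw [← this]; push_cast; ring
          rw [this]
        · rw [h3]
          apply flF_eq ht0 ht1 G
          · have : ((G.M - 1 : ℕ) : ℝ) ≤ G.M := by exact_mod_cast (by omega : G.M - 1 ≤ G.M)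
            rw [h4]; exact this
          · rw [h4]
            have : ((G.M - 1 : ℕ) : ℝ) + 1 = G.M := by
              have : (((G.M - 1) + 1 : ℕ) : ℝ) = G.M := by congr 1; omega
              rw [← this]; push_cast; ring
            rw [this]
      · refine ⟨⌊z.re⌋₊, ?_, Nat.floor_le h1, (Nat.lt_floor_add_one _).le, h3⟩
        exact (Nat.floor_lt h1).2 h4
    · rintro ⟨c, hcM, h1, h2, h3⟩
      have h4 : (c : ℝ) + 1 ≤ G.M := by exact_mod_cast hcM
      have h5 : (0 : ℝ) ≤ c := Nat.cast_nonneg c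
      exact ⟨h5.trans h1, h2.trans h4, by rw [h3, flF_eq ht0 ht1 G h1 h2]⟩

end Pool.Agent.Helper2_Pak.H87
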