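import Pool.Agent.Helper87_Pak.PLib
import Pool.Agent.Helper2_Pak.Cast

/-!
# PB3: the walls
-/

namespace Pool.Agent.Helper2_Pak.H87.PB3

open Pool.Agent.Helper2_Pack (Polygon pt Crosses region IsSimple chainVal StrictX)
open Pool.Agent.Helper34_Pack (Seg)

/-- the function of a wall -/
noncomputable def wallG (t : ℝ) (X : ℕ) (W : ℕ → ℝ) (y : ℝ) : ℝ :=
  X + (if ⌊y⌋₊ % 2 = 1 then W ⌊y⌋₊ * max 0 (trap t (y - ⌊y⌋₊)) else 0)

theorem trap_low {t y : ℝ} (ht : 0 < t) (h : y ≤ t / 4) : max 0 (trap t y) = 0 := by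
  apply max_eq_left
  unfold trap
  apply (min_le_right _ _).trans
  apply (min_le_left _ _).trans
  have : 4 * y / t ≤ 1 := by rw [div_le_iff₀ ht]; linarith
  linarith

theorem trap_high {t y : ℝ} (ht : 0 < t) (h : 1 - t / 4 ≤ y) : max 0 (trap t y) = 0 := by
  apply max_eq_left
  unfold trap
  apply (min_le_right _ _).trans
  apply (min_le_right _ _).trans
  have : 4 * (1 - y) / t ≤ 1 := by rw [div_le_iff₀ ht]; linarith
  linarith

theorem trap_mid {t y : ℝ} (ht : 0 < t) (h1 : t / 2 ≤ y) (h2 : y ≤ 1 - t / 2) :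
    max 0 (trap t y) = 1 := by
  have : trap t y = 1 := by
    unfold trap
    apply min_eq_left
    apply le_min
    · have : 2 ≤ 4 * y / t := by rw [le_div_iff₀ ht]; linarith
      linarith
    · have : 2 ≤ 4 * (1 - y) / t := by rw [le_div_iff₀ ht]; linarith
      linarith
  rw [this]
  norm_num

theorem trap_up {t y : ℝ} (ht : 0 < t) (ht' : t ≤ 1 / 2) (h1 : t / 4 ≤ y) (h2 : y ≤ t / 2) :
    max 0 (trap t y) = 4 * y / t - 1 := by
  have e1 : 4 * y / t ≤ 2 := by rw [div_le_iff₀ ht]; linarith
  have e2 : 1 ≤ 4 * y / t := by rw [le_div_iff₀ ht]; linarith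
  have e3 : 4 * y / t ≤ 4 * (1 - y) / t := by
    apply div_le_div_of_nonneg_right _ ht.le; linarith
  have : trap t y = 4 * y / t - 1 := by
    unfold trap
    rw [min_eq_left (by linarith : 4 * y / t - 1 ≤ 4 * (1 - y) / t - 1), min_eq_right (by linarith)]
  rw [this, max_eq_right (by linarith)]

theorem trap_down {t y : ℝ} (ht : 0 < t) (ht' : t ≤ 1 / 2) (h1 : 1 - t / 2 ≤ y)
    (h2 : y ≤ 1 - t / 4) : max 0 (trap t y) = 4 * (1 - y) / t - 1 := by
  have e1 : 4 * (1 - y) / t ≤ 2 := by rw [div_le_iff₀ ht]; linarith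
  have e2 : 1 ≤ 4 * (1 - y) / t := by rw [le_div_iff₀ ht]; linarith
  have e3 : 4 * (1 - y) / t ≤ 4 * y / t := by
    apply div_le_div_of_nonneg_right _ ht.le; linarith
  have : trap t y = 4 * (1 - y) / t - 1 := by
    unfold trap
    rw [min_eq_right (by linarith : 4 * (1 - y) / t - 1 ≤ 4 * y / t - 1), min_eq_right (by linarith)]
  rw [this, max_eq_right (by linarith)]

theorem wallG_floor {t : ℝ} {X : ℕ} {W : ℕ → ℝ} {a : ℕ} {y : ℝ} (h1 : (a : ℝ) ≤ y)
    (h2 : y < a + 1) : wallG t X W y = X + (if a % 2 = 1 then W a * max 0 (trap t (y - a)) else 0) := by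
  have e : ⌊y⌋₊ = a := by
    rw [Nat.floor_eq_iff (by linarith [(Nat.cast_nonneg a : (0 : ℝ) ≤ a)])]
    exact ⟨h1, h2⟩
  unfold wallG
  rw [e]

theorem wallG_nat {t : ℝ} (ht : 0 < t) {X : ℕ} {W : ℕ → ℝ} {a : ℕ} : wallG t X W a = X := by
  rw [wallG_floor le_rfl (by linarith), sub_self, trap_low ht (by linarith)]
  simp

theorem wallG_even {t : ℝ} (ht : 0 < t) {X : ℕ} {W : ℕ → ℝ} {a : ℕ} (ha : a % 2 = 0) {y : ℝ}
    (h1 : (a : ℝ) ≤ y) (h2 : y ≤ a + 1) : wallG t X W y = X := by
  rcases eq_or_lt_of_le h2 with h | h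
  · rw [h]
    have := wallG_nat ht (X := X) (W := W) (a := a + 1)
    push_cast at this
    exact this
  · rw [wallG_floor h1 h, if_neg (by omega), add_zero]

/-- the chain of a wall, with the coordinates exchanged -/
theorem wall_chain {t : ℚ} (ht : 0 < t) (ht' : t ≤ 1 / 64) (X : ℕ) (W : ℕ → ℚ) : ∀ (n a : ℕ)
    (s : ℚ), s ≤ a → (n = 0 → s < a) →
    (∀ y : ℝ, (s : ℝ) ≤ y → y ≤ a → wallG t X (fun r => W r) y = X) →
    ((s, (X : ℚ)) :: (swp (((List.range' a n).filter fun r => r % 2 = 1).flatMap
      fun r => recPts t (W r) X r) ++ [(((a + n : ℕ) : ℚ), (X : ℚ))])).IsChain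
      (Seg (wallG t X (fun r => W r)))
  | 0, a, s, h1, h2, h3 => by
    simp only [List.range'_zero, List.filter_nil, List.flatMap_nil, swp, List.map_nil,
      List.nil_append, List.isChain_cons_cons, List.isChain_singleton, and_true, add_zero]
    refine Seg.flat (h2 rfl) ?_
    intro y hy1 hy2
    rw [h3 y hy1 (by exact_mod_cast hy2)]
    simp
  | n + 1, a, s, h1, h2, h3 => by
    have ht0 : (0 : ℝ) < t := by exact_mod_cast ht
    have ht1 : (t : ℝ) ≤ 1 / 64 := by
      have h := Rat.cast_le (K := ℝ) |>.2 ht'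
      push_cast at h
      exact h
    rcases Nat.mod_two_eq_zero_or_one a with ha | ha
    · have ih := wall_chain ht ht' X W n (a + 1) s (by push_cast; linarith)
        (fun _ => by push_cast; linarith) (by
          intro y hy1 hy2
          rcases le_total y a with h4 | h4
          · exact h3 y hy1 h4
          · exact wallG_even ht0 ha h4 (by exact_mod_cast hy2))
      have e : (List.range' a (n + 1)).filter (fun r => r % 2 = 1) =
          (List.range' (a + 1) n).filter (fun r => r % 2 = 1) := by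
        rw [List.range'_succ, List.filter_cons_of_neg (by simp [ha])]
      rw [e]
      have e2 : a + (n + 1) = a + 1 + n := by ring
      rw [e2]
      exact ih
    · have g : ∀ y : ℝ, (a : ℝ) ≤ y → y < a + 1 → wallG t X (fun r => W r) y =
          X + W a * max 0 (trap t (y - a)) := by
        intro y hy1 hy2
        rw [wallG_floor hy1 hy2, if_pos ha]
      have ih := wall_chain ht ht' X W n (a + 1) (a + 1 - t / 4) (by push_cast; linarith)
        (fun _ => by push_cast; linarith) (by
          intro y hy1 hy2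
          push_cast at hy1 hy2
          rcases eq_or_lt_of_le hy2 with h4 | h4
          · rw [h4]
            have := wallG_nat ht0 (X := X) (W := fun r => (W r : ℝ)) (a := a + 1)
            push_cast at this
            exact this
          · rw [g y (by linarith) h4, trap_high ht0 (by linarith)]
            simp)
      have e : (List.range' a (n + 1)).filter (fun r => r % 2 = 1) =
          a :: (List.range' (a + 1) n).filter (fun r => r % 2 = 1) := by
        rw [List.range'_succ, List.filter_cons_of_pos (by simp [ha])]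
      have e2 : a + (n + 1) = a + 1 + n := by ring
      rw [e, e2, List.flatMap_cons]
      unfold swp at ih ⊢
      rw [List.map_append, List.append_assoc]
      simp only [recPts, List.map_cons, List.map_nil, Prod.swap_prod_mk, List.cons_append,
        List.nil_append] at ih ⊢
      rw [List.isChain_cons_cons, List.isChain_cons_cons, List.isChain_cons_cons,
        List.isChain_cons_cons]
      refine ⟨?_, ?_, ?_, ?_, ih⟩
      · refine Seg.flat (by linarith) ?_
        intro y hy1 hy2
        push_cast at hy2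
        rcases le_total y a with h4 | h4
        · rw [h3 y hy1 h4]; simp
        · rw [g y h4 (by linarith), trap_low ht0 (by linarith)]
          simp
      · refine Seg.of_slope (4 * W a / t) (by dsimp only; linarith)
          (by push_cast; field_simp; ring) ?_
        intro y hy1 hy2
        push_cast at hy1 hy2 ⊢
        rw [g y (by linarith) (by linarith), trap_up ht0 (by linarith) (by linarith) (by linarith)]
        field_simp
        ring
      · refine Seg.flat (by linarith) ?_
        intro y hy1 hy2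
        push_cast at hy1 hy2 ⊢
        rw [g y (by linarith) (by linarith), trap_mid ht0 (by linarith) (by linarith)]
        ring
      · refine Seg.of_slope (-(4 * W a / t)) (by dsimp only; linarith)
          (by push_cast; field_simp; ring) ?_
        intro y hy1 hy2
        push_cast at hy1 hy2 ⊢
        rw [g y (by linarith) (by linarith), trap_down ht0 (by linarith) (by linarith) (by linarith)]
        field_simp
        ring

theorem strictY_of {L : Polygon} {f : ℝ → ℝ} (h : (swp L).IsChain (Seg f)) : StrictY L := by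
  have := Helper34_Pack.chain_strict h
  unfold StrictX swp at this
  rw [List.pairwise_map] at this
  exact this

/-- the part of a wall from the row `a` to the row `b` -/
theorem wall_part {t : ℚ} (ht : 0 < t) (ht' : t ≤ 1 / 64) (X : ℕ) (W : ℕ → ℚ) {a b : ℕ}
    (hab : a < b) {L : Polygon} (hL : L = ((X : ℚ), (a : ℚ)) ::
      ((oddRows a b).flatMap (fun r => recPts t (W r) X r) ++ [((X : ℚ), (b : ℚ))])) :
    StrictY L ∧ L.head? = some ((X : ℚ), (a : ℚ)) ∧ L.getLast? = some ((X : ℚ), (b : ℚ)) ∧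
    ∀ y : ℝ, (a : ℝ) ≤ y → y ≤ b → chainVal (swp L) y = wallG t X (fun r => W r) y := by
  have ht0 : (0 : ℝ) < t := by exact_mod_cast ht
  have hc := wall_chain ht ht' X W (b - a) a a le_rfl (by omega) (by
    intro y hy1 hy2
    have : y = a := le_antisymm hy2 (by exact_mod_cast hy1)
    rw [this]
    exact wallG_nat ht0)
  have e : a + (b - a) = b := by omega
  rw [e] at hc
  have e1 : swp L = ((a : ℚ), (X : ℚ)) :: (swp (((List.range' a (b - a)).filter
      fun r => r % 2 = 1).flatMap fun r => recPts t (W r) X r) ++ [((b : ℚ), (X : ℚ))]) := by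
    rw [hL]
    unfold swp oddRows
    simp
  rw [← e1] at hc
  refine ⟨strictY_of hc, by rw [hL]; rfl, ?_, ?_⟩
  · rw [hL, ← List.cons_append, List.getLast?_append]
    rfl
  · intro y hy1 hy2
    have hh : (swp L).head? = some ((a : ℚ), (X : ℚ)) := by rw [e1]; rfl
    have hl : (swp L).getLast? = some ((b : ℚ), (X : ℚ)) := by
      rw [e1, ← List.cons_append, List.getLast?_append]
      rfl
    have hab' : (a : ℚ) < b := by exact_mod_cast hab
    exact Helper34_Pack.chain_eval' hc hh hl hab' y (by simpa using hy1) (by simpa using hy2)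

theorem t_small {m : ℕ} {G : Lay} (h : Small ((1 / 2) ^ m) G) : ((1 / 2 : ℚ) ^ m) ≤ 1 / 64 := by
  have h1 := h.small
  have h2 : ((1 / 2 : ℝ)) ^ m ≤ 1 / 64 := by
    have h3 : (64 : ℝ) ≤ 2 ^ (32 * G.K + 120) := by
      calc (64 : ℝ) = 2 ^ 6 := by norm_num
        _ ≤ 2 ^ (32 * G.K + 120) := pow_le_pow_right₀ (by norm_num) (by omega)
    have h4 := h.pos
    nlinarith
  have : (((1 / 2 : ℚ) ^ m : ℚ) : ℝ) ≤ ((1 / 64 : ℚ) : ℝ) := by
    rw [cast_half]
    push_cast
    exact h2
  exact_mod_cast this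

/-- at the wall between the two halves of a lever nothing happens -/
theorem not_isL {G : Lay} (hOK : G.OK) {X : ℕ} (hX : X ≤ G.M) (h : G.topL X ≠ G.topR X) :
    X ≠ 0 → (G.kd (X - 1)).isL = false := by
  intro h0
  by_contra hL
  rw [Bool.not_eq_false] at hL
  obtain ⟨σ, hσ⟩ : ∃ σ, G.kd (X - 1) = .pL σ := by
    cases hk : G.kd (X - 1) <;> simp_all [Kind.isL]
  obtain ⟨h1, h2⟩ := hOK.portL (X - 1) σ (by omega) hσ
  have e : X - 1 + 1 = X := by omega
  rw [e] at h1 h2
  apply h
  unfold Lay.topL Lay.topR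
  rw [if_neg h0, if_pos h1]
  unfold Lay.top
  rw [hσ, h2]
  rfl

theorem J'_eq {G : Lay} (hOK : G.OK) {X : ℕ} (hX : X ≤ G.M) (h : G.topL X ≠ G.topR X) (t : ℚ) :
    (if X = 0 then 0 else G.J' t (X - 1)) = (G.topL X : ℚ) := by
  unfold Lay.topL
  split_ifs with h0
  · simp
  · unfold Lay.J'
    rw [not_isL hOK hX h h0]
    simp

/-- PB3 -/
theorem pb3 : PB3Stmt := by
  intro m G X hOK hS hX
  have ht : (0 : ℚ) < (1 / 2) ^ m := by positivity
  have ht' := t_small hS
  refine ⟨fun h => ?_, fun h => ?_, fun h => ?_⟩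
  · unfold Lay.wallPts
    rw [if_neg (by omega), if_neg (by omega)]
  · have e : G.wallP ((1 / 2) ^ m) X = ((X : ℚ), (G.topL X : ℚ)) ::
        ((oddRows (G.topL X) (G.topR X)).flatMap (fun r => recPts ((1 / 2) ^ m)
          (-((1 / 2) ^ m) ^ 3) X r) ++ [((X : ℚ), (G.topR X : ℚ))]) := by
      unfold Lay.wallP Lay.wallPts
      rw [J'_eq hOK hX (by omega), if_pos h]
    obtain ⟨h1, h2, h3, h4⟩ := wall_part ht ht' X (fun _ => -((1 / 2) ^ m) ^ 3) h e
    refine ⟨h1, h2, h3, fun y hy1 hy2 => ?_⟩
    rw [h4 y hy1 hy2]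
    unfold wallG
    rw [cast_half]
    split_ifs
    · push_cast
      ring
    · simp
  · have e : (G.wallP ((1 / 2) ^ m) X).reverse = ((X : ℚ), (G.topR X : ℚ)) ::
        ((oddRows (G.topR X) (G.topL X)).flatMap (fun r => recPts ((1 / 2) ^ m)
          (G.rw ((1 / 2) ^ m) X r) X r) ++ [((X : ℚ), (G.topL X : ℚ))]) := by
      unfold Lay.wallP Lay.wallPts
      rw [J'_eq hOK hX (by omega), if_neg (by omega), if_pos h]
      simp
    obtain ⟨h1, h2, h3, h4⟩ := wall_part ht ht' X (fun r => G.rw ((1 / 2) ^ m) X r) h e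
    refine ⟨h1, h2, h3, fun y hy1 hy2 => ?_⟩
    rw [h4 y hy1 hy2]
    unfold wallG
    simp only [cast_half, G.cast_rw]

end Pool.Agent.Helper2_Pak.H87.PB3
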