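import Pool.Agent.Helper87_Pak.GLib

/-!
# G4: the bumps of the floor and of the ceiling, and the spikes
-/

namespace Pool.Agent.Helper2_Pak.H87

/-- a point with points outside of the set directly above it -/
theorem notMem_interior_up {S : Set ℂ} {x y : ℝ} (h : ∀ δ : ℝ, 0 < δ → (⟨x, y + δ⟩ : ℂ) ∉ S) :
    (⟨x, y⟩ : ℂ) ∉ interior S := by
  intro hm
  have hc : Continuous fun δ : ℝ => (⟨x, y + δ⟩ : ℂ) := by
    have : (fun δ : ℝ => (⟨x, y + δ⟩ : ℂ)) = fun δ : ℝ => (x : ℂ) + ((y + δ : ℝ) : ℂ) * Complex.I := by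
      funext δ
      apply Complex.ext <;> simp
    rw [this]
    fun_prop
  have h0 : (⟨x, y + 0⟩ : ℂ) ∈ interior S := by rwa [add_zero]
  have := hc.continuousAt.preimage_mem_nhds (isOpen_interior.mem_nhds h0)
  obtain ⟨ε, hε, hb⟩ := Metric.mem_nhds_iff.1 this
  have h2 := hb (show ε / 2 ∈ Metric.ball (0 : ℝ) ε by
    rw [Metric.mem_ball, Real.dist_eq, sub_zero, abs_of_pos (by linarith)]; linarith)
  exact h (ε / 2) (by linarith) (interior_subset h2)

/-- a point with points outside of the set directly below it -/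
theorem notMem_interior_down {S : Set ℂ} {x y : ℝ} (h : ∀ δ : ℝ, 0 < δ → (⟨x, y - δ⟩ : ℂ) ∉ S) :
    (⟨x, y⟩ : ℂ) ∉ interior S := by
  intro hm
  have hc : Continuous fun δ : ℝ => (⟨x, y - δ⟩ : ℂ) := by
    have : (fun δ : ℝ => (⟨x, y - δ⟩ : ℂ)) = fun δ : ℝ => (x : ℂ) + ((y - δ : ℝ) : ℂ) * Complex.I := by
      funext δ
      apply Complex.ext <;> simp
    rw [this]
    fun_prop
  have h0 : (⟨x, y - 0⟩ : ℂ) ∈ interior S := by rwa [sub_zero]
  have := hc.continuousAt.preimage_mem_nhds (isOpen_interior.mem_nhds h0)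
  obtain ⟨ε, hε, hb⟩ := Metric.mem_nhds_iff.1 this
  have h2 := hb (show ε / 2 ∈ Metric.ball (0 : ℝ) ε by
    rw [Metric.mem_ball, Real.dist_eq, sub_zero, abs_of_pos (by linarith)]; linarith)
  exact h (ε / 2) (by linarith) (interior_subset h2)

/-- G4 -/
theorem g4 (h1 : G1Stmt) : G4Stmt := by
  intro t G c hOK hS hc
  obtain ⟨ht', _, _, hD, _, _⟩ := h1 t G hOK hS
  have ht := hS.pos
  have hrw : ∀ c r, 0 < G.rw t c r ∧ G.rw t c r ≤ t / 32 :=
    fun c r => ⟨(hD c r).2.2.2, (hD c r).2.2.1⟩
  obtain ⟨s3, s1⟩ := small3 ht ht'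
  have e14 : (c + 1 / 4 : ℝ) - c = 1 / 4 := by ring
  have e34 : (c + 3 / 4 : ℝ) - c = 3 / 4 := by ring
  have b1 : bump t (1 / 4 - 3 / 4) = 0 := bump_zero (by norm_num; linarith)
  have b2 : bump t (3 / 4 - 1 / 4) = 0 := bump_zero (by norm_num; linarith)
  refine ⟨fun hW => ⟨?_, ?_⟩, fun hW => ⟨?_, ?_⟩, fun hL y hy1 hy2 => ?_⟩
  · apply notMem_interior_down
    intro δ hδ hm
    obtain ⟨_, _, _, hf, _⟩ := mem_col ht ht' hrw hm (c := c) (by simp; linarith) (by simp; linarith)
    simp only [Lay.locFl, e14] at hf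
    rw [ramp_one ht (by linarith) (by linarith), hW, sub_self, bump_at ht, b1] at hf
    simp only [Bool.false_eq_true, if_false] at hf
    linarith
  · apply notMem_interior_down
    intro δ hδ hm
    obtain ⟨_, _, _, hf, _⟩ := mem_col ht ht' hrw hm (c := c) (by simp; linarith) (by simp; linarith)
    simp only [Lay.locFl, e34] at hf
    rw [ramp_one ht (by linarith) (by linarith), hW, sub_self, bump_at ht, b2] at hf
    simp only [Bool.false_eq_true, if_false] at hf
    linarith
  · apply notMem_interior_up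
    intro δ hδ hm
    obtain ⟨_, _, _, _, hf⟩ := mem_col ht ht' hrw hm (c := c) (by simp; linarith) (by simp; linarith)
    simp only [Lay.locCe, e14] at hf
    rw [ramp_one ht (by linarith) (by linarith), hW, isW_isL hW, isW_isR hW, sub_self, bump_at ht,
      b1] at hf
    simp only [Bool.false_eq_true, if_false, if_true] at hf
    linarith
  · apply notMem_interior_up
    intro δ hδ hm
    obtain ⟨_, _, _, _, hf⟩ := mem_col ht ht' hrw hm (c := c) (by simp; linarith) (by simp; linarith)
    simp only [Lay.locCe, e34] at hf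
    rw [ramp_one ht (by linarith) (by linarith), hW, isW_isL hW, isW_isR hW, sub_self, bump_at ht,
      b2] at hf
    simp only [Bool.false_eq_true, if_false, if_true] at hf
    linarith
  · obtain ⟨σ, hσ⟩ : ∃ σ, G.kd c = .pL σ := by
      cases hk : G.kd c <;> simp_all [Kind.isL]
    obtain ⟨hM, hR⟩ := hOK.portL c σ hc hσ
    have he := eL_bd σ
    have hsig : (G.kd c).sig = σ := by rw [hσ]; rfl
    have hsig' : (G.kd (c + 1)).sig = σ := by rw [hR]; rfl
    rw [hsig] at hy1
    apply notMem_interior_up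
    intro δ hδ hm
    have htop : G.top c = G.N := by unfold Lay.top; rw [hσ]; rfl
    have htop' : G.top (c + 1) = G.N := by unfold Lay.top; rw [hR]; rfl
    rcases hm with hm | ⟨X, r, _, h0, h⟩
    · rw [Set.mem_iUnion] at hm
      obtain ⟨c', ha, hb, _, hf⟩ := hm
      simp only at ha hb
      have e1 : (c' : ℕ) ≤ c + 1 := by exact_mod_cast ha
      have e2 : c + 1 ≤ (c' : ℕ) + 1 := by exact_mod_cast hb
      obtain e | e : (c' : ℕ) = c ∨ (c' : ℕ) = c + 1 := by omega
      · rw [e] at hf
        have e3 : (c + 1 : ℝ) - c = 1 := by ring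
        simp only [Lay.locCe, e3] at hf
        rw [if_pos hL, hsig, if_neg (by linarith [he.2])] at hf
        have := hf.trans (min_le_right _ _)
        simp only [sub_self, zero_div, mul_zero, add_zero] at this
        linarith
      · rw [e] at hf
        have e3 : (c + 1 : ℝ) - ((c + 1 : ℕ) : ℝ) = 0 := by push_cast; ring
        have hR' : (G.kd (c + 1)).isR = true := by rw [hR]; rfl
        simp only [Lay.locCe, e3] at hf
        rw [isR_isL hR', if_neg (by simp), if_pos hR', hsig', if_pos (by linarith [he.1])] at hf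
        have := hf.trans (min_le_right _ _)
        simp only [zero_div, mul_zero, add_zero] at this
        linarith
    · obtain ⟨ha, hb⟩ := recess_near ht hrw h0 h
      simp only at ha hb
      have e1 : (X : ℝ) < c + 2 := by linarith
      have e2 : (c : ℝ) < X := by linarith
      have e1' : X < c + 2 := by exact_mod_cast e1
      have e2' : c < X := by exact_mod_cast e2
      have e : X = c + 1 := by omega
      subst e
      unfold Lay.wallL Lay.wallR Lay.pres at h
      rw [htop'] at h
      simp only [Nat.add_sub_cancel, htop] at h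
      rcases h with ⟨h, _⟩ | ⟨h, _⟩
      · simp at h
        omega
      · simp at h
        omega

end Pool.Agent.Helper2_Pak.H87
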