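import Pool.Agent.Helper2_Pak.Stmts

/-!
# Small facts on the container
-/

namespace Pool.Agent.Helper2_Pak.H87

open Pool.Agent.Helper2_Pack (Motion)

theorem trap_le (t y : ℝ) : trap t y ≤ 1 := min_le_left _ _

theorem bump_nonneg (t e : ℝ) : 0 ≤ bump t e := le_max_left _ _

theorem dent_nonneg (t e : ℝ) : 0 ≤ dent t e := le_max_left _ _

theorem dent_zero {t e : ℝ} (ht : 0 < t) (he : 1 / 64 ≤ |e|) : dent t e = 0 := by
  unfold dent
  apply max_eq_left
  have : 0 ≤ 2 * t ^ 3 := by positivity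
  nlinarith

theorem bump_zero {t e : ℝ} (he : t ^ 3 ≤ |e|) : bump t e = 0 := by
  unfold bump
  apply max_eq_left
  linarith

theorem bump_at {t : ℝ} (ht : 0 < t) : bump t 0 = t ^ 3 := by
  unfold bump
  rw [abs_zero, sub_zero]
  exact max_eq_right (by positivity)

theorem ramp_one {t x : ℝ} (ht : 0 < t) (h1 : t / 4 ≤ x) (h2 : x ≤ 1 - t / 4) : ramp t x = 1 := by
  unfold ramp
  apply min_eq_left
  apply le_min
  · rw [le_div_iff₀ ht]; linarith
  · rw [le_div_iff₀ ht]; linarith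

theorem small3 {t : ℝ} (ht : 0 < t) (ht' : t ≤ 1 / 2 ^ 120) : t ^ 3 ≤ t / 1024 ∧ t ≤ 1 / 1024 := by
  have h1 : t ≤ 1 / 1024 := ht'.trans (by norm_num)
  refine ⟨?_, h1⟩
  have h2 : t ^ 2 ≤ 1 / 1024 := by nlinarith
  nlinarith

/-- a recess lies near its wall -/
theorem recess_near {t : ℝ} {G : Lay} (ht : 0 < t) (hrw : ∀ c r, 0 < G.rw t c r ∧ G.rw t c r ≤ t / 32)
    {z : ℂ} {X r : ℕ} (h0 : 0 ≤ trap t (z.im - r))
    (h : (G.wallL X r = true ∧ X - t ^ 3 * trap t (z.im - r) ≤ z.re ∧ z.re ≤ X) ∨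
      (G.wallR X r = true ∧ X ≤ z.re ∧ z.re ≤ X + G.rw t X r * trap t (z.im - r))) :
    X - t ^ 3 ≤ z.re ∧ z.re ≤ X + t / 32 := by
  have h1 := trap_le t (z.im - r)
  have h3 : 0 < t ^ 3 := by positivity
  rcases h with ⟨_, ha, hb⟩ | ⟨_, ha, hb⟩
  · constructor
    · nlinarith
    · linarith
  · constructor
    · linarith
    · nlinarith [hrw X r]

/-- away from the vertical lines at integers only one column is relevant -/
theorem mem_col {t : ℝ} {G : Lay} (ht : 0 < t) (ht' : t ≤ 1 / 2 ^ 120)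
    (hrw : ∀ c r, 0 < G.rw t c r ∧ G.rw t c r ≤ t / 32) {z : ℂ} (hz : z ∈ G.cont t) {c : ℕ}
    (h1 : c + 1 / 16 ≤ z.re) (h2 : z.re ≤ c + 15 / 16) : c < G.M ∧ z ∈ G.colReg t c := by
  obtain ⟨s3, s1⟩ := small3 ht ht'
  rcases hz with hz | ⟨X, r, _, h0, h⟩
  · rw [Set.mem_iUnion] at hz
    obtain ⟨c', hc'⟩ := hz
    have hc := hc'
    obtain ⟨ha, hb, _⟩ := hc
    have e : (c' : ℕ) = c := by
      have e1 : ((c' : ℕ) : ℝ) < c + 1 := by linarith
      have e2 : (c : ℝ) < (c' : ℕ) + 1 := by linarith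
      have e1' : (c' : ℕ) < c + 1 := by exact_mod_cast e1
      have e2' : c < (c' : ℕ) + 1 := by exact_mod_cast e2
      omega
    subst e
    exact ⟨c'.2, hc'⟩
  · exfalso
    obtain ⟨ha, hb⟩ := recess_near ht hrw h0 h
    have e1 : (X : ℝ) < c + 1 := by linarith
    have e2 : (c : ℝ) < X := by linarith
    have e1' : X < c + 1 := by exact_mod_cast e1
    have e2' : c < X := by exact_mod_cast e2
    omega

theorem h_of_isL {k : Kind} (h : k.isL = true) : k.h = 0 := by cases k <;> simp_all [Kind.isL, Kind.h]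

theorem h_of_isR {k : Kind} (h : k.isR = true) : k.h = 0 := by cases k <;> simp_all [Kind.isR, Kind.h]

theorem isW_isL {k : Kind} (h : k.isW = true) : k.isL = false := by
  cases k <;> simp_all [Kind.isL, Kind.isW]

theorem isW_isR {k : Kind} (h : k.isW = true) : k.isR = false := by
  cases k <;> simp_all [Kind.isR, Kind.isW]

theorem isR_isL {k : Kind} (h : k.isR = true) : k.isL = false := by
  cases k <;> simp_all [Kind.isR, Kind.isL]

theorem eL_bd (σ : Bool) : 14 / 32 ≤ eL σ ∧ eL σ ≤ 18 / 32 := by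
  unfold eL; split_ifs <;> norm_num

theorem ce_port {t : ℝ} {G : Lay} {c : ℕ} (h : (G.kd c).isL = true ∨ (G.kd c).isR = true) :
    G.ce t c = G.N + t ^ 4 := by
  have h0 : (G.kd c).h = 0 := by
    rcases h with h | h
    · exact h_of_isL h
    · exact h_of_isR h
  unfold Lay.ce Lay.top
  rw [h0, add_zero, Finset.Ico_self, Finset.sum_empty, add_zero, if_pos (by simpa using h)]

end Pool.Agent.Helper2_Pak.H87
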