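import Pool.Agent.Helper2_Pak.StmtsP
import Pool.Agent.Helper34_Pack.P9c
import Pool.Agent.Helper15_Pack.Poly

/-!
# Chains for floor and walls
-/

namespace Pool.Agent.Helper2_Pak.H87

open Pool.Agent.Helper2_Pack (Polygon pt Crosses region IsSimple chainVal StrictX)
open Pool.Agent.Helper34_Pack (Seg)

/-- a tent of half width `w` and height `d` -/
noncomputable def tentF (w d e : ℝ) : ℝ := if |e| ≤ w then d * (1 - |e| / w) else 0

theorem tentF_zero {w d e : ℝ} (hw : 0 < w) (h : w ≤ |e|) : tentF w d e = 0 := by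
  unfold tentF
  split_ifs with h1
  · have : |e| = w := le_antisymm h1 h
    rw [this, div_self hw.ne']
    ring
  · rfl

theorem tentF_left {w d e : ℝ} (h1 : -w ≤ e) (h2 : e ≤ 0) : tentF w d e = d * (1 + e / w) := by
  unfold tentF
  rw [abs_of_nonpos h2, if_pos (by linarith)]
  ring

theorem tentF_right {w d e : ℝ} (h1 : 0 ≤ e) (h2 : e ≤ w) : tentF w d e = d * (1 - e / w) := by
  unfold tentF
  rw [abs_of_nonneg h1, if_pos (by linarith)]

theorem ramp_left {t x : ℝ} (ht : 0 < t) (h3 : t ≤ 1) (h2 : x ≤ t / 4) :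
    ramp t x = 4 * x / t := by
  unfold ramp
  have h : 4 * x / t ≤ 1 := by rw [div_le_iff₀ ht]; linarith
  have h' : 4 * x / t ≤ 4 * (1 - x) / t := by
    apply div_le_div_of_nonneg_right _ ht.le; linarith
  rw [min_eq_left h', min_eq_right h]

theorem ramp_right {t x : ℝ} (ht : 0 < t) (h3 : t ≤ 1) (h2 : 1 - t / 4 ≤ x) :
    ramp t x = 4 * (1 - x) / t := by
  unfold ramp
  have h : 4 * (1 - x) / t ≤ 1 := by rw [div_le_iff₀ ht]; linarith
  have h' : 4 * (1 - x) / t ≤ 4 * x / t := by
    apply div_le_div_of_nonneg_right _ ht.le; linarith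
  rw [min_eq_right h', min_eq_right h]

theorem ramp_mid {t x : ℝ} (ht : 0 < t) (h1 : t / 4 ≤ x) (h2 : x ≤ 1 - t / 4) : ramp t x = 1 := by
  unfold ramp
  apply min_eq_left
  apply le_min
  · rw [le_div_iff₀ ht]; linarith
  · rw [le_div_iff₀ ht]; linarith

/-- the chain of a column -/
theorem col_chain {F : ℝ → ℝ} {c t y w d : ℚ} (ht : 0 < t) (ht' : t ≤ 1 / 64) (hw : 0 < w)
    (hw' : w ≤ 1 / 64)
    (hF : ∀ x : ℝ, (c : ℝ) ≤ x → x ≤ c + 1 → F x = y * ramp t (x - c) + tentF w d (x - c - 1 / 4) +
      tentF w d (x - c - 3 / 4)) :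
    (([(c, 0), (c + t / 4, y)] : Polygon) ++ (tentPts (c + 1 / 4) y w d ++
      tentPts (c + 3 / 4) y w d) ++ [(c + 1 - t / 4, y), (c + 1, 0)]).IsChain (Seg F) := by
  have ht0 : (0 : ℝ) < t := by exact_mod_cast ht
  have ht1 : (t : ℝ) ≤ 1 / 64 := by
    have h := Rat.cast_le (K := ℝ) |>.2 ht'
    push_cast at h
    exact h
  have hw0 : (0 : ℝ) < w := by exact_mod_cast hw
  have hw1 : (w : ℝ) ≤ 1 / 64 := by
    have h := Rat.cast_le (K := ℝ) |>.2 hw'
    push_cast at h
    exact h
  simp only [tentPts, List.cons_append, List.nil_append, List.isChain_cons_cons,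
    List.isChain_singleton, and_true]
  refine ⟨?_, ?_, ?_, ?_, ?_, ?_, ?_, ?_, ?_⟩
  · refine Seg.of_slope (4 * y / t) (by dsimp only; linarith) (by push_cast; field_simp; ring) ?_
    intro x h1 h2
    push_cast at h1 h2 ⊢
    rw [hF x h1 (by linarith), ramp_left ht0 (by linarith) (by linarith),
      tentF_zero hw0 (by rw [le_abs]; right; linarith),
      tentF_zero hw0 (by rw [le_abs]; right; linarith)]
    ring
  · refine Seg.flat (by linarith) ?_
    intro x h1 h2
    push_cast at h1 h2 ⊢
    rw [hF x (by linarith) (by linarith), ramp_mid ht0 (by linarith) (by linarith),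
      tentF_zero hw0 (by rw [le_abs]; right; linarith),
      tentF_zero hw0 (by rw [le_abs]; right; linarith)]
    ring
  · refine Seg.of_slope (d / w) (by dsimp only; linarith) (by push_cast; field_simp; ring) ?_
    intro x h1 h2
    push_cast at h1 h2 ⊢
    rw [hF x (by linarith) (by linarith), ramp_mid ht0 (by linarith) (by linarith),
      tentF_left (by linarith) (by linarith),
      tentF_zero hw0 (by rw [le_abs]; right; linarith)]
    field_simp
    ring
  · refine Seg.of_slope (-(d / w)) (by dsimp only; linarith) (by push_cast; field_simp; ring) ?_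
    intro x h1 h2
    push_cast at h1 h2 ⊢
    rw [hF x (by linarith) (by linarith), ramp_mid ht0 (by linarith) (by linarith),
      tentF_right (by linarith) (by linarith),
      tentF_zero hw0 (by rw [le_abs]; right; linarith)]
    field_simp
    ring
  · refine Seg.flat (by linarith) ?_
    intro x h1 h2
    push_cast at h1 h2 ⊢
    rw [hF x (by linarith) (by linarith), ramp_mid ht0 (by linarith) (by linarith),
      tentF_zero hw0 (by rw [le_abs]; left; linarith),
      tentF_zero hw0 (by rw [le_abs]; right; linarith)]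
    ring
  · refine Seg.of_slope (d / w) (by dsimp only; linarith) (by push_cast; field_simp; ring) ?_
    intro x h1 h2
    push_cast at h1 h2 ⊢
    rw [hF x (by linarith) (by linarith), ramp_mid ht0 (by linarith) (by linarith),
      tentF_zero hw0 (by rw [le_abs]; left; linarith),
      tentF_left (by linarith) (by linarith)]
    field_simp
    ring
  · refine Seg.of_slope (-(d / w)) (by dsimp only; linarith) (by push_cast; field_simp; ring) ?_
    intro x h1 h2
    push_cast at h1 h2 ⊢
    rw [hF x (by linarith) (by linarith), ramp_mid ht0 (by linarith) (by linarith),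
      tentF_zero hw0 (by rw [le_abs]; left; linarith),
      tentF_right (by linarith) (by linarith)]
    field_simp
    ring
  · refine Seg.flat (by linarith) ?_
    intro x h1 h2
    push_cast at h1 h2 ⊢
    rw [hF x (by linarith) (by linarith), ramp_mid ht0 (by linarith) (by linarith),
      tentF_zero hw0 (by rw [le_abs]; left; linarith),
      tentF_zero hw0 (by rw [le_abs]; left; linarith)]
    ring
  · refine Seg.of_slope (-(4 * y / t)) (by dsimp only; linarith) (by push_cast; field_simp; ring) ?_
    intro x h1 h2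
    push_cast at h1 h2 ⊢
    rw [hF x (by linarith) (by linarith), ramp_right ht0 (by linarith) (by linarith),
      tentF_zero hw0 (by rw [le_abs]; left; linarith),
      tentF_zero hw0 (by rw [le_abs]; left; linarith)]
    field_simp
    ring

/-- the points of a path -/
theorem pathSet_cons (p r : ℚ × ℚ) (L : Polygon) :
    pathSet (p :: r :: L) = segment ℝ (pt p) (pt r) ∪ pathSet (r :: L) := by
  ext z
  constructor
  · rintro (⟨i, hi, hz⟩ | ⟨s, hs, _⟩)
    · cases i with
      | zero => exact Or.inl hz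
      | succ i =>
        right; left
        refine ⟨i, by simpa using hi, ?_⟩
        simpa [segP] using hz
    · simp at hs
  · rintro (hz | ⟨i, hi, hz⟩ | ⟨s, hs, rfl⟩)
    · left
      exact ⟨0, by simp, hz⟩
    · left
      refine ⟨i + 1, by simpa using hi, ?_⟩
      simpa [segP] using hz
    · simp only [List.cons.injEq] at hs
      obtain ⟨rfl, rfl⟩ := hs
      left
      exact ⟨0, by simp, right_mem_segment ℝ _ _⟩

theorem pathSet_single (p : ℚ × ℚ) : pathSet [p] = {pt p} := by
  ext z
  constructor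
  · rintro (⟨i, hi, _⟩ | ⟨s, hs, rfl⟩)
    · simp at hi
    · simp only [List.cons.injEq, and_true] at hs
      rw [hs]; rfl
  · intro h
    right
    exact ⟨p, rfl, h⟩

/-- the points of a chain -/
theorem pathSet_chain {f : ℝ → ℝ} : ∀ (L : Polygon) (p b : ℚ × ℚ), (p :: L).IsChain (Seg f) →
    (p :: L).getLast? = some b → f p.1 = p.2 → (p.1 : ℝ) ≤ b.1 ∧
    pathSet (p :: L) = {z : ℂ | (p.1 : ℝ) ≤ z.re ∧ z.re ≤ b.1 ∧ z.im = f z.re}
  | [], p, b, _, hb, hp => by
    simp only [List.getLast?_singleton, Option.some.injEq] at hb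
    subst hb
    refine ⟨le_rfl, ?_⟩
    rw [pathSet_single]
    ext z
    simp only [Set.mem_singleton_iff, Set.mem_ofPred_eq]
    constructor
    · rintro rfl
      exact ⟨le_rfl, le_rfl, hp.symm⟩
    · rintro ⟨h1, h2, h3⟩
      have h4 : z.re = p.1 := le_antisymm h2 h1
      apply Complex.ext
      · exact h4
      · rw [h3, h4, hp]; rfl
  | r :: L, p, b, hc, hb, hp => by
    rw [List.isChain_cons_cons] at hc
    rw [List.getLast?_cons_cons] at hb
    obtain ⟨hlt, hs⟩ := hc.1
    have hlt' : (p.1 : ℝ) < r.1 := by exact_mod_cast hlt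
    have hr : f r.1 = r.2 := Helper34_Pack.seg_last hc.1
    obtain ⟨ih1, ih2⟩ := pathSet_chain L r b hc.2 hb hr
    refine ⟨hlt'.le.trans ih1, ?_⟩
    rw [pathSet_cons, ih2]
    ext z
    simp only [Set.mem_union, Set.mem_ofPred_eq, Helper15_Pack.mem_seg hlt]
    constructor
    · rintro (⟨h1, h2, h3⟩ | ⟨h1, h2, h3⟩)
      · exact ⟨h1, h2.trans ih1, by rw [h3, hs z.re h1 h2]⟩
      · exact ⟨hlt'.le.trans h1, h2, h3⟩
    · rintro ⟨h1, h2, h3⟩
      rcases le_total z.re r.1 with h4 | h4
      · left
        exact ⟨h1, h4, by rw [h3, hs z.re h1 h4]⟩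
      · right
        exact ⟨h4, h2, h3⟩

theorem weakX_of_strictX {L : Polygon} (h : StrictX L) : WeakX L := by
  unfold StrictX at h
  rw [List.pairwise_iff_getElem] at h
  constructor
  · intro i hi
    have h1 := h i (i + 1) (by omega) hi (by omega)
    rw [List.getD_eq_getElem _ _ (by omega), List.getD_eq_getElem _ _ hi]
    exact ⟨h1.le, fun e => by rw [e] at h1; exact lt_irrefl _ h1⟩
  · intro i hi
    have h1 := h i (i + 2) (by omega) hi (by omega)
    rw [List.getD_eq_getElem _ _ (by omega), List.getD_eq_getElem _ _ hi]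
    exact h1

end Pool.Agent.Helper2_Pak.H87
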